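import Mathlib
import Pool.Agent.X317.SR.Q1

/-!
# MP_467d59_al: finite spread-resolutions over a total order times a finite poset
-/

set_option autoImplicit false
set_option linter.all false

namespace Pool.Agent.Results.MP_467d59_al.FiniteSpreadRes

open Pool.Agent.X317.SR CategoryTheory

universe u

/-- For every total order `T` (in particular every infinite one) and every finite poset `Q`, each
finitely presented representation of `T × Q` has a finite spread-resolution. -/
theorem result (k : Type u) [Field k] (T : Type u) [LinearOrder T] (Q : Type u) [PartialOrder Q]
    [Finite Q] (M : Rep k (T × Q)) (hM : IsFP M) : ∃ n : ℕ, HasSpreadRes n M :=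
  Q1 M hM

end Pool.Agent.Results.MP_467d59_al.FiniteSpreadRes
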